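import Pool.Agent.Helper76.DE.StL
import Pool.Agent.Helper77.ND.M_Er

/-!
# Project PRD (MP_77ff3d_nt), module Erz

Replace the number of preimages by its mean, with a base point `z`.
-/

set_option autoImplicit false

noncomputable section

namespace Pool.Agent.Helper90.PRD

open Pool.Agent.Helper76.ND Pool.Agent.Helper76.DE Finset
open Pool.Agent.Helper77.ND (erc er_cell er_row er_group)

/-- module Erz -/
theorem hErz (hNs : StNs) (hPe : StPe) (hQs : StQs) (hPo : StPo) : StErz := by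
  intro z x y m f hx _hz hy hf hmy
  set κ : ℝ := rho / (Real.log x / 100) with hκ
  have hrho : 0 < rho := by
    unfold rho
    have := Real.log_pos (show (1 : ℝ) < 4 / 3 by norm_num)
    linarith
  have hκ0 : 0 ≤ κ := by
    rw [hκ]
    have := Real.log_pos hx
    positivity
  have hkap : ∀ M, 0 ≤ kz z x M ∧ kz z x M ≤ κ := by
    intro M
    unfold kz
    split_ifs
    · exact ⟨hκ0, le_refl _⟩
    · exact ⟨le_refl _, hκ0⟩
  have hmt : ∀ t ∈ range (tz z x y + 1), (3 : ℝ) ^ m * 2 ^ t ≤ y := by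
    intro t ht
    have h1 : t ≤ tz z x y := by rw [mem_range] at ht; omega
    have h2 : (2 : ℝ) ^ t ≤ 2 ^ tz z x y := pow_le_pow_right₀ (by norm_num) h1
    have h3 : (0 : ℝ) < 3 ^ m := by positivity
    nlinarith
  have hdiff : Agz z x y f - Amz z x y m f = ∑ t ∈ range (tz z x y + 1), ∑ M ∈ Icc 1 ⌊z * zr x⌋₊,
      kz z x M * f M * ∑ k ∈ range (t + 1),
        (3 ^ k * nt k t M - q t k * (3 ^ m * pim m M)) / M *
          ((2 ^ t * ((M : ℝ) / y) / 3 ^ k) * gg (2 ^ t * ((M : ℝ) / y) / 3 ^ k)) := by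
    unfold Agz Amz
    rw [← sum_sub_distrib]
    refine sum_congr rfl fun t _ => ?_
    rw [← sum_sub_distrib]
    refine sum_congr rfl fun M hM => ?_
    have hM1 : 1 ≤ M := (mem_Icc.1 hM).1
    have hM0 : (M : ℝ) ≠ 0 := by
      have : (0 : ℝ) < M := by exact_mod_cast hM1
      exact this.ne'
    rw [er_group t M (fun k => gg (2 ^ t * M / 3 ^ k / y) / y), mul_assoc (kz z x M * f M),
      ← mul_sub, mul_sum, ← sum_sub_distrib]
    congr 1
    refine sum_congr rfl fun k _ => ?_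
    have hV : (2 : ℝ) ^ t * M / 3 ^ k / y = 2 ^ t * ((M : ℝ) / y) / 3 ^ k := by
      field_simp
    rw [hV]
    generalize gg (2 ^ t * ((M : ℝ) / y) / 3 ^ k) = g
    field_simp
  rw [hdiff]
  have hcell : ∀ t ∈ range (tz z x y + 1), |∑ M ∈ Icc 1 ⌊z * zr x⌋₊,
      kz z x M * f M * ∑ k ∈ range (t + 1),
        (3 ^ k * nt k t M - q t k * (3 ^ m * pim m M)) / M *
          ((2 ^ t * ((M : ℝ) / y) / 3 ^ k) * gg (2 ^ t * ((M : ℝ) / y) / 3 ^ k))| ≤
      κ * (3 / 2 * ∑ k ∈ Icc m t, Del m k t + 3 * ∑ k ∈ range m, q t k) := by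
    intro t ht
    calc _ ≤ ∑ M ∈ Icc 1 ⌊z * zr x⌋₊, |kz z x M * f M * ∑ k ∈ range (t + 1),
        (3 ^ k * nt k t M - q t k * (3 ^ m * pim m M)) / M *
          ((2 ^ t * ((M : ℝ) / y) / 3 ^ k) * gg (2 ^ t * ((M : ℝ) / y) / 3 ^ k))| :=
          abs_sum_le_sum_abs _ _
      _ ≤ ∑ M ∈ Icc 1 ⌊z * zr x⌋₊, κ * ∑ k ∈ range (t + 1),
        |3 ^ k * nt k t M - q t k * (3 ^ m * pim m M)| / M *
          ((2 ^ t * ((M : ℝ) / y) / 3 ^ k) * gg (2 ^ t * ((M : ℝ) / y) / 3 ^ k)) := by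
          refine sum_le_sum fun M _ => ?_
          rw [abs_mul]
          have hk := hkap M
          have hfM := hf M
          apply mul_le_mul
          · rw [abs_of_nonneg (mul_nonneg hk.1 hfM.1)]
            nlinarith [hk.1, hk.2, hfM.1, hfM.2]
          · refine le_trans (abs_sum_le_sum_abs _ _) (sum_le_sum fun k _ => ?_)
            have h0 := (hPo.2.1 (2 ^ t * ((M : ℝ) / y) / 3 ^ k)).2.2.1
            rw [abs_mul, abs_div, Nat.abs_cast, abs_of_nonneg h0]
          · exact abs_nonneg _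
          · exact hκ0
      _ = κ * ∑ k ∈ range (t + 1), ∑ M ∈ Icc 1 ⌊z * zr x⌋₊,
        |3 ^ k * nt k t M - q t k * (3 ^ m * pim m M)| / M *
          ((2 ^ t * ((M : ℝ) / y) / 3 ^ k) * gg (2 ^ t * ((M : ℝ) / y) / 3 ^ k)) := by
          rw [← mul_sum, sum_comm]
      _ ≤ κ * ∑ k ∈ range (t + 1), erc m k t := by
          refine mul_le_mul_of_nonneg_left (sum_le_sum fun k _ => ?_) hκ0
          exact er_cell hNs hPe hPo m k t _ y hy (hmt t ht)
      _ ≤ _ := mul_le_mul_of_nonneg_left (er_row m t) hκ0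
  refine le_trans (abs_sum_le_sum_abs _ _) (le_trans (sum_le_sum hcell) ?_)
  rw [← mul_sum]
  refine mul_le_mul_of_nonneg_left ?_ hκ0
  rw [sum_add_distrib, ← mul_sum, ← mul_sum, sum_comm (s := range (tz z x y + 1)) (t := range m)]
  have h7 : ∑ k ∈ range m, ∑ t ∈ range (tz z x y + 1), q t k ≤ ∑ k ∈ range m, (2 : ℝ) :=
    sum_le_sum fun k _ => hQs.2.1 k _
  rw [sum_const, card_range, nsmul_eq_mul] at h7
  linarith

end Pool.Agent.Helper90.PRD
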