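import Pool.Agent.Helper76.DE.StN

/-!
# Project PRD (MP_77ff3d_nt), module LN: first moment
-/

set_option autoImplicit false

noncomputable section

namespace Pool.Agent.Helper90.PRD

open Pool.Agent.Helper76.ND Pool.Agent.Helper76.DE Finset

/-- `kz` is constant on the support of `f` -/
theorem kz_mul {z x w : ℝ} {f : ℕ → ℝ} (hz : 1 ≤ z) (h1 : z * zl x ≤ w) (h2 : 2 * w ≤ z * zr x)
    (hf : ∀ M : ℕ, f M ≠ 0 → w ≤ M ∧ (M : ℝ) ≤ 2 * w) (M : ℕ) :
    kz z x M * f M = rho / (Real.log x / 100) * f M := by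
  have hz0 : 0 < z := by linarith
  by_cases h0 : f M = 0
  · rw [h0, mul_zero, mul_zero]
  · obtain ⟨h3, h4⟩ := hf M h0
    unfold kz
    rw [if_pos]
    constructor
    · rw [le_div_iff₀ hz0]; linarith
    · rw [div_le_iff₀ hz0]; linarith

theorem awz_eq (hFxz : StFxz) {z x w y : ℝ} {f : ℕ → ℝ} (hx : 3 ≤ x) (hY : YZ z x y)
    (h1 : z * zl x ≤ w) (h2 : 2 * w ≤ z * zr x)
    (hf : ∀ M : ℕ, f M ≠ 0 → w ≤ M ∧ (M : ℝ) ≤ 2 * w) :
    Awz z x y f = rho / (Real.log x / 100) * ∑ N ∈ Icc 1 ⌊2 * y⌋₊, mu y N *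
      ∑ t ∈ range (tz z x y + 1), f (S^[t] N) := by
  rw [hFxz z x y f hx hY, Finset.mul_sum]
  refine Finset.sum_congr rfl fun N _ => ?_
  have h3 : ∑ t ∈ range (tz z x y + 1), kz z x (S^[t] N) * f (S^[t] N) =
      rho / (Real.log x / 100) * ∑ t ∈ range (tz z x y + 1), f (S^[t] N) := by
    rw [Finset.mul_sum]
    exact Finset.sum_congr rfl fun t _ => kz_mul hY.1 h1 h2 hf _
  rw [h3]
  ring

theorem jjz_eq {z x w : ℝ} {f : ℕ → ℝ} (m : ℕ) (hz : 1 ≤ z)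
    (h1 : z * zl x ≤ w) (h2 : 2 * w ≤ z * zr x)
    (hf : ∀ M : ℕ, f M ≠ 0 → w ≤ M ∧ (M : ℝ) ≤ 2 * w) :
    JJz z x m f = rho / (Real.log x / 100) *
      ∑ M ∈ Icc 1 ⌊2 * w⌋₊, f M * (3 ^ m * pim m M / M) := by
  unfold JJz
  rw [Finset.mul_sum]
  symm
  rw [Finset.sum_congr rfl fun (M : ℕ) (_ : M ∈ Icc 1 ⌊z * zr x⌋₊) =>
    show kz z x M * f M * (3 ^ m * pim m M / M) =
      rho / (Real.log x / 100) * (f M * (3 ^ m * pim m M / M)) by
        rw [kz_mul hz h1 h2 hf M]; ring]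
  apply Finset.sum_subset
  · intro M hM
    rw [Finset.mem_Icc] at hM ⊢
    exact ⟨hM.1, hM.2.trans (Nat.floor_le_floor h2)⟩
  · intro M hM hM'
    have h0 : f M = 0 := by
      by_contra h0
      apply hM'
      rw [Finset.mem_Icc] at hM ⊢
      exact ⟨hM.1, Nat.le_floor (hf M h0).2⟩
    rw [h0]
    ring

/-- module LN -/
theorem hLN (hPr : StPr) (_hPo : StPo) (hFxz : StFxz) (hLiz : StLiz) (hMnz : StMnz) (hSd : StSd)
    (hYj : StYj) (hEj : StEj) : StLN := by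
  obtain ⟨x1, hx13, hP⟩ := hPr
  obtain ⟨x3, C2, hx33, hC2, hLi⟩ := hLiz
  obtain ⟨x4, C4, hx43, hC4, hMn⟩ := hMnz
  obtain ⟨C3, hC3, hSd⟩ := hSd
  refine ⟨max (max x1 (max x3 x4)) (Real.exp 65536),
    C2 + C4 + 200 * (15 * C3 + 40) + 1, ?_, by positivity, ?_⟩
  · exact le_trans hx13 (le_trans (le_max_left _ _) (le_max_left _ _))
  intro z x w f hx hz hw1 hw2 hf01 hf
  have hxx1 : x1 ≤ x := le_trans (le_trans (le_max_left _ _) (le_max_left _ _)) hx
  have hxx3 : x3 ≤ x := le_trans (le_trans (le_max_left _ _) (le_trans (le_max_right _ _)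
    (le_max_left _ _))) hx
  have hxx4 : x4 ≤ x := le_trans (le_trans (le_max_right _ _) (le_trans (le_max_right _ _)
    (le_max_left _ _))) hx
  have hxe : Real.exp 65536 ≤ x := le_trans (le_max_right _ _) hx
  have hx0 : 0 < x := lt_of_lt_of_le (Real.exp_pos _) hxe
  have hLb : 65536 ≤ Real.log x := (Real.le_log_iff_exp_le hx0).2 hxe
  have hxe2 : Real.exp 200 ≤ x := le_trans (Real.exp_le_exp.mpr (by norm_num)) hxe
  have hx3 : 3 ≤ x := le_trans hx13 hxx1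
  have hYR : YR x (x ^ (106 / 100 : ℝ)) :=
    ⟨Real.rpow_le_rpow_of_exponent_le (by linarith) (by norm_num), le_rfl⟩
  obtain ⟨p1, p2, p3, p4, p5, p6, p7, p8, p9, p10, p11, p12, p13, p14⟩ :=
    hP x (x ^ (106 / 100 : ℝ)) hxx1 hYR
  obtain ⟨hY1, hY2, hY3⟩ := hYj z x hz hxe2
  set T := t1 x (x ^ (106 / 100 : ℝ)) with hT
  set L := Real.log x with hL
  have hL0 : 0 < L := by linarith
  set v := L ^ (1 / 8 : ℝ) with hv
  have hv0 : 0 < v := Real.rpow_pos_of_pos hL0 _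
  have hv8 : v ^ 8 = L := by
    rw [hv, ← Real.rpow_natCast, ← Real.rpow_mul hL0.le]; norm_num
  have hv4 : 4 ≤ v := by
    by_contra hcon
    push Not at hcon
    have : v ^ 8 < 4 ^ 8 := pow_lt_pow_left₀ hcon hv0.le (by norm_num)
    rw [hv8] at this
    norm_num at this
    linarith
  set ω := L ^ (-(1 / 1600) : ℝ) with hω
  have hω0 : 0 < ω := Real.rpow_pos_of_pos hL0 _
  have hmm : mm x = ⌈v⌉₊ := rfl
  rw [hmm]
  set m := ⌈v⌉₊ with hm
  have hm1 : v ≤ m := Nat.le_ceil v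
  have hm2 : (m : ℝ) ≤ 2 * v := by
    have := Nat.ceil_lt_add_one hv0.le
    linarith
  have hm0 : 1 ≤ m := by
    have : (1 : ℝ) ≤ m := by linarith
    exact_mod_cast this
  have hLw : ∀ e : ℝ, e ≤ -(1 / 1600) → L ^ e ≤ ω := by
    intro e he
    exact Real.rpow_le_rpow_of_exponent_le p1 he
  have hLinv : 1 / L ≤ ω := by
    have := hLw (-1) (by norm_num)
    rwa [Real.rpow_neg_one, ← one_div] at this
  have h3m : (3 : ℝ) ^ m ≤ x ^ (1 / 2000 : ℝ) := by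
    have h1 : (m : ℝ) * Real.log 3 ≤ 1 / 2000 * L := by
      have hl3 : Real.log 3 ≤ 11 / 10 := by
        have := Real.log_three_lt_d9
        linarith
      have hl30 : 0 ≤ Real.log 3 := Real.log_nonneg (by norm_num)
      have h2 : (m : ℝ) * Real.log 3 ≤ 2 * v * (11 / 10) :=
        mul_le_mul hm2 hl3 hl30 (by positivity)
      have h3 : (4 : ℝ) ^ 7 ≤ v ^ 7 := pow_le_pow_left₀ (by norm_num) hv4 7
      have h4 : L = v ^ 7 * v := by rw [← hv8]; ring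
      have h5 : (4 : ℝ) ^ 7 * v ≤ v ^ 7 * v := mul_le_mul_of_nonneg_right h3 hv0.le
      rw [h4]
      norm_num at h5
      linarith
    rw [← Real.log_le_log_iff (by positivity) (Real.rpow_pos_of_pos hx0 _), Real.log_pow,
      Real.log_rpow hx0]
    exact h1
  have hzl0 : 0 < zl x := Real.rpow_pos_of_pos hx0 _
  have hzlw : zl x ≤ w := by nlinarith
  have hzl1 : x ^ (1 / 2000 : ℝ) ≤ zl x :=
    Real.rpow_le_rpow_of_exponent_le (by linarith) (by norm_num)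
  have h3w : (3 : ℝ) ^ m ≤ w := by linarith
  have hw1' : 1 ≤ w := le_trans (one_le_pow₀ (by norm_num)) h3w
  have hrho : 0 < rho := by linarith
  set κ := rho / (L / 100) with hκ
  have hκ0 : 0 < κ := by positivity
  have hκL : 1 / L ≤ κ := by
    have : κ = 100 * rho / L := by rw [hκ]; field_simp
    rw [this]
    exact div_le_div_of_nonneg_right (by linarith) hL0.le
  -- the sum of the mixing errors
  have e5 := hSd m T hm0
  have hmr : (m : ℝ) ^ (-(1 / 200) : ℝ) ≤ ω := by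
    have h1 : (m : ℝ) ^ (-(1 / 200) : ℝ) ≤ v ^ (-(1 / 200) : ℝ) :=
      Real.rpow_le_rpow_of_nonpos hv0 hm1 (by norm_num)
    refine le_trans h1 (le_of_eq ?_)
    rw [hv, ← Real.rpow_mul hL0.le, hω]
    norm_num
  have hsq : Real.sqrt (T : ℝ) ≤ v ^ 4 := by
    have h1 : Real.sqrt (T : ℝ) ≤ Real.sqrt L := Real.sqrt_le_sqrt (by linarith)
    refine le_trans h1 (le_of_eq ?_)
    rw [← hv8]
    rw [show v ^ 8 = (v ^ 4) ^ 2 by ring]
    exact Real.sqrt_sq (by positivity)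
  have ht1L : (T : ℝ) ≤ L := by linarith
  have a1 : (m : ℝ) ≤ 2 * (L * ω) := by
    have h1 := hLw (-(7 / 8)) (by norm_num)
    have h2 : v = L * L ^ (-(7 / 8) : ℝ) := by
      have : L * L ^ (-(7 / 8) : ℝ) = L ^ (1 : ℝ) * L ^ (-(7 / 8) : ℝ) := by rw [Real.rpow_one]
      rw [this, ← Real.rpow_add hL0, hv]
      norm_num
    have h3 : v ≤ L * ω := by
      conv_lhs => rw [h2]
      exact mul_le_mul_of_nonneg_left h1 hL0.le
    linarith
  have g2 : C3 * ((m : ℝ) + (T : ℝ) * (m : ℝ) ^ (-(1 / 200) : ℝ) +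
      (m : ℝ) * Real.sqrt (T : ℝ)) ≤ C3 * (5 * (L * ω)) := by
    apply mul_le_mul_of_nonneg_left _ hC3.le
    have a2 : (T : ℝ) * (m : ℝ) ^ (-(1 / 200) : ℝ) ≤ L * ω :=
      mul_le_mul ht1L hmr (Real.rpow_nonneg (Nat.cast_nonneg _) _) hL0.le
    have a3 : (m : ℝ) * Real.sqrt (T : ℝ) ≤ 2 * (L * ω) := by
      have h1 := hLw (-(3 / 8)) (by norm_num)
      have h2 : v * v ^ 4 = L * L ^ (-(3 / 8) : ℝ) := by
        have : L * L ^ (-(3 / 8) : ℝ) = L ^ (1 : ℝ) * L ^ (-(3 / 8) : ℝ) := by rw [Real.rpow_one]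
        rw [this, ← Real.rpow_add hL0]
        rw [show v * v ^ 4 = v ^ 5 by ring, hv, ← Real.rpow_natCast, ← Real.rpow_mul hL0.le]
        norm_num
      have h3 : v * v ^ 4 ≤ L * ω := by
        rw [h2]
        exact mul_le_mul_of_nonneg_left h1 hL0.le
      have h4 : (m : ℝ) * Real.sqrt (T : ℝ) ≤ 2 * v * v ^ 4 :=
        mul_le_mul hm2 hsq (Real.sqrt_nonneg _) (by positivity)
      linarith
    linarith
  have hSS0 : ∑ t ∈ range (T + 1), ∑ k ∈ Icc m t, Del m k t ≤ C3 * (5 * (L * ω)) :=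
    le_trans e5 g2
  have hEj' := hEj z x w m f hz hxe2 hw1' hf01 hf h3w p5
  set X := ∑ M ∈ Icc 1 ⌊2 * w⌋₊, f M * (3 ^ m * pim m M / M) with hX
  by_contra hcon
  push Not at hcon
  have hJ0 : (0 : ℝ) < Jn x := lt_of_lt_of_le (by positivity) hY2
  -- lower bound for every `j`
  have hlow : ∀ j ∈ range (Jn x),
      κ * X - (C2 + C4) / L ^ 2 + (Agz z x (yj z x j) f - Amz z x (yj z x j) m f) ≤
        κ * (X - (C2 + C4 + 200 * (15 * C3 + 40) + 1) * ω) := by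
    intro j hj
    have hj' := Finset.mem_range.mp hj
    have hYj' := (hY1 j hj').1
    have e1 := awz_eq hFxz hx3 hYj' hw1 hw2 hf
    have e2 := hLi z x (yj z x j) f hxx3 hYj' hf01
    have e4 := hMn z x (yj z x j) m f hxx4 hYj' hf01 h3m
    have e6 := jjz_eq (x := x) m hz hw1 hw2 hf
    have e7 := hcon (yj z x j) hYj'
    rw [← hL] at e1 e2 e4 e6
    rw [← hκ] at e1 e6
    rw [← hX] at e6
    have e8 := mul_le_mul_of_nonneg_left e7.le hκ0.le
    rw [← e1] at e8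
    rw [e6] at e4
    have e9 := (abs_le.mp e2).1
    have e10 := (abs_le.mp e4).1
    have e11 : (C2 + C4) / L ^ 2 = C2 / L ^ 2 + C4 / L ^ 2 := by ring
    linarith
  have hsum := Finset.sum_le_sum hlow
  rw [Finset.sum_add_distrib, Finset.sum_const, Finset.sum_const, Finset.card_range,
    nsmul_eq_mul, nsmul_eq_mul] at hsum
  have hEj'' := (abs_le.mp hEj').1
  rw [← hL, ← hκ, ← hT] at hEj''
  -- final comparison
  have k1 : (C2 + C4) / L ^ 2 ≤ κ * ((C2 + C4) * ω) := by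
    have h1 : (C2 + C4) / L ^ 2 = (C2 + C4) * ((1 / L) * (1 / L)) := by
      field_simp
    have h2 : (1 / L) * (1 / L) ≤ κ * ω := mul_le_mul hκL hLinv (by positivity) hκ0.le
    rw [h1]
    calc (C2 + C4) * ((1 / L) * (1 / L)) ≤ (C2 + C4) * (κ * ω) :=
          mul_le_mul_of_nonneg_left h2 (by positivity)
      _ = _ := by ring
  have k2 : 3 * ∑ t ∈ range (T + 1), ∑ k ∈ Icc m t, Del m k t + 20 * (m : ℝ) ≤
      (15 * C3 + 40) * (L * ω) := by
    linarith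
  have k3 : L * ω ≤ 200 * Jn x * ω := mul_le_mul_of_nonneg_right (by linarith) hω0.le
  have k4 : κ * (3 * ∑ t ∈ range (T + 1), ∑ k ∈ Icc m t, Del m k t + 20 * (m : ℝ)) ≤
      κ * ((15 * C3 + 40) * (200 * Jn x * ω)) := by
    apply mul_le_mul_of_nonneg_left _ hκ0.le
    exact k2.trans (mul_le_mul_of_nonneg_left k3 (by positivity))
  have k5 : (Jn x : ℝ) * ((C2 + C4) / L ^ 2) ≤ Jn x * (κ * ((C2 + C4) * ω)) :=
    mul_le_mul_of_nonneg_left k1 hJ0.le
  have k6 : 0 < (Jn x : ℝ) * κ * ω := by positivity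
  have k7 : (Jn x : ℝ) * (κ * X - (C2 + C4) / L ^ 2) = Jn x * (κ * X) - Jn x * ((C2 + C4) / L ^ 2) := by
    ring
  have k8 : (Jn x : ℝ) * (κ * (X - (C2 + C4 + 200 * (15 * C3 + 40) + 1) * ω)) =
      Jn x * (κ * X) - Jn x * (κ * ((C2 + C4) * ω)) - κ * ((15 * C3 + 40) * (200 * Jn x * ω)) -
        Jn x * κ * ω := by
    ring
  rw [k7, k8] at hsum
  linarith

end Pool.Agent.Helper90.PRD
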