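import Pool.Agent.Helper76.DE.StL

/-!
# Project PRD (MP_77ff3d_nt), module Mnz: main term with a base point
-/

set_option autoImplicit false

noncomputable section

namespace Pool.Agent.Helper90.PRD

open Pool.Agent.Helper76.ND Pool.Agent.Helper76.DE Finset

theorem mnz_harm (a b : ℕ) (ha : 1 ≤ a) (hab : a ≤ b) :
    ∑ M ∈ Icc a b, (1 : ℝ) / M ≤ 1 / a + (Real.log b - Real.log a) := by
  induction b, hab using Nat.le_induction with
  | base => simp
  | succ b hab ih =>
    rw [Finset.sum_Icc_succ_top (by omega)]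
    have hb : (0 : ℝ) < b := by
      have : 1 ≤ b := by omega
      exact_mod_cast this
    have h1 := Real.one_sub_inv_le_log_of_pos (x := ((b : ℝ) + 1) / b) (by positivity)
    rw [Real.log_div (by positivity) hb.ne', inv_div] at h1
    have h2 : 1 - (b : ℝ) / (b + 1) = 1 / (b + 1) := by field_simp; ring
    rw [h2] at h1
    push_cast
    linarith

theorem mnz_ns_nonneg (e n s M : ℕ) : 0 ≤ ns e n s M := by
  unfold ns
  positivity

theorem mnz_pim_nonneg (m M : ℕ) : 0 ≤ pim m M := by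
  unfold pim
  exact Finset.sum_nonneg (fun s _ => mnz_ns_nonneg _ _ _ _)

theorem mnz_pim_le (hNs : StNs) (m M : ℕ) : pim m M ≤ 1 := by
  obtain ⟨-, -, h3, -, -, h6, -⟩ := hNs
  have hper : ∀ j M : ℕ, pim m (M + j * 3 ^ m) = pim m M := by
    intro j
    induction j with
    | zero => intro M; simp
    | succ j ih =>
      intro M
      rw [show M + (j + 1) * 3 ^ m = (M + j * 3 ^ m) + 3 ^ m by ring, h3, ih]
  have h1 : pim m M = pim m (M % 3 ^ m) := by
    conv_lhs => rw [← Nat.mod_add_div M (3 ^ m)]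
    rw [mul_comm (3 ^ m)]
    exact hper _ _
  rw [h1]
  refine le_trans ?_ (h6 m)
  exact Finset.single_le_sum (f := fun M => pim m M) (fun i _ => mnz_pim_nonneg m i)
    (Finset.mem_range.2 (Nat.mod_lt _ (by positivity)))

/-- the sum of `1/M` over the window -/
theorem mnz_window (z x : ℝ) (hz : 1 ≤ z) (hx : 3 ≤ x) (hL : 1 ≤ Real.log x) :
    ∑ M ∈ Icc 1 ⌊z * zr x⌋₊, (if z * zl x ≤ M then (1 : ℝ) / M else 0) ≤ 2 * Real.log x := by
  have hxp : 0 < x := by linarith
  have hz0 : 0 < z := by linarith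
  have hzl : 1 ≤ zl x := Real.one_le_rpow (by linarith) (by norm_num)
  have hzlr : zl x ≤ zr x := Real.rpow_le_rpow_of_exponent_le (by linarith) (by norm_num)
  have hzr : 1 ≤ zr x := hzl.trans hzlr
  have hzz : 1 ≤ z * zl x := by nlinarith
  have hzr0 : 0 < zr x := by linarith
  have hzl0 : 0 < zl x := by linarith
  rw [← Finset.sum_filter]
  have hsub : (Icc 1 ⌊z * zr x⌋₊).filter (fun M : ℕ => z * zl x ≤ M) ⊆
      Icc ⌈z * zl x⌉₊ ⌊z * zr x⌋₊ := by
    intro M hM
    rw [mem_filter, mem_Icc] at hM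
    rw [mem_Icc]
    exact ⟨Nat.ceil_le.2 hM.2, hM.1.2⟩
  have h1 : ∑ M ∈ (Icc 1 ⌊z * zr x⌋₊).filter (fun M : ℕ => z * zl x ≤ M), (1 : ℝ) / M ≤
      ∑ M ∈ Icc ⌈z * zl x⌉₊ ⌊z * zr x⌋₊, (1 : ℝ) / M :=
    sum_le_sum_of_subset_of_nonneg hsub (fun M _ _ => by positivity)
  refine h1.trans ?_
  by_cases hab : ⌈z * zl x⌉₊ ≤ ⌊z * zr x⌋₊
  · have ha1 : 1 ≤ ⌈z * zl x⌉₊ := by
      have h2 := Nat.le_ceil (z * zl x)
      have h3 : (1 : ℝ) ≤ ⌈z * zl x⌉₊ := by linarith
      exact_mod_cast h3
    refine (mnz_harm _ _ ha1 hab).trans ?_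
    have ha0 : (0 : ℝ) < ⌈z * zl x⌉₊ := by exact_mod_cast ha1
    have h4 : (1 : ℝ) / ⌈z * zl x⌉₊ ≤ 1 := by
      rw [div_le_one ha0]
      exact_mod_cast ha1
    have hb0 : (0 : ℝ) < ⌊z * zr x⌋₊ := by
      have h5 : 1 ≤ ⌊z * zr x⌋₊ := ha1.trans hab
      exact_mod_cast h5
    have h6 : Real.log ⌊z * zr x⌋₊ ≤ Real.log (z * zr x) :=
      Real.log_le_log hb0 (Nat.floor_le (by positivity))
    have h7 : Real.log (z * zl x) ≤ Real.log ⌈z * zl x⌉₊ :=
      Real.log_le_log (by positivity) (Nat.le_ceil _)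
    rw [Real.log_mul hz0.ne' hzr0.ne'] at h6
    rw [Real.log_mul hz0.ne' hzl0.ne'] at h7
    have h8 : Real.log (zr x) = 104 / 100 * Real.log x := Real.log_rpow hxp _
    have h9 : Real.log (zl x) = 103 / 100 * Real.log x := Real.log_rpow hxp _
    linarith
  · rw [Finset.Icc_eq_empty hab, Finset.sum_empty]
    linarith

/-- module Mnz -/
theorem hMnz (hPr : StPr) (hNs : StNs) (hPo : StPo) (hTe : StTe) (hTl : StTl) : StMnz := by
  obtain ⟨x0, hx0, H⟩ := hPr
  obtain ⟨-, -, -, -, -, -, -, hphi1, hphi0⟩ := hPo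
  refine ⟨x0, 200000000, hx0, by norm_num, ?_⟩
  intro z x y m f hx hY hf hm
  have hz : 1 ≤ z := hY.1
  obtain ⟨h1, h2, -, -, -, -, h7, -, h9, h10, -, h12, h13, -⟩ := H x (y / z) hx hY.2
  change Real.log (y / z) - rho * (tz z x y : ℝ) < 101 / 100 * Real.log x + rho at h7
  have hx3 : 3 ≤ x := hx0.trans hx
  have hxp : 0 < x := by linarith
  have hz0 : 0 < z := by linarith
  have hyz0 : 0 < y / z := by linarith
  have hyeq : y = y / z * z := by field_simp
  have hyp : 0 < y := by rw [hyeq]; positivity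
  have hlyz : Real.log (y / z) = Real.log y - Real.log z := Real.log_div hyp.ne' hz0.ne'
  set L := Real.log x with hL
  set T := tz z x y + 1 with hT
  have hL0 : 0 < L := by linarith
  set w : ℕ → ℝ := fun M => kz z x M * f M * (3 ^ m * pim m M / M) with hw
  set tail : ℕ → ℝ := fun M => ∑ k ∈ range (T + 1), q T k * phi (2 ^ T * ((M : ℝ) / y) / 3 ^ k)
    with htail
  have hzr0 : 0 < zr x := Real.rpow_pos_of_pos hxp _
  have hMy : ∀ M ∈ Icc 1 ⌊z * zr x⌋₊, (0 : ℝ) < M / y ∧ (M : ℝ) / y ≤ 1 := by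
    intro M hM
    rw [mem_Icc] at hM
    have hM0 : (0 : ℝ) < M := by exact_mod_cast hM.1
    refine ⟨div_pos hM0 hyp, ?_⟩
    rw [div_le_one hyp]
    have h3 : (M : ℝ) ≤ z * zr x :=
      le_trans (by exact_mod_cast hM.2) (Nat.floor_le (by positivity))
    have h4 : z * zr x ≤ z * (y / z) := mul_le_mul_of_nonneg_left h13 hz0.le
    have h5 : z * (y / z) = y := by field_simp
    linarith
  have hAm : Amz z x y m f - JJz z x m f = - ∑ M ∈ Icc 1 ⌊z * zr x⌋₊, w M * tail M := by
    unfold Amz JJz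
    rw [Finset.sum_comm, ← Finset.sum_sub_distrib, ← Finset.sum_neg_distrib]
    refine Finset.sum_congr rfl (fun M hM => ?_)
    rw [← Finset.mul_sum, hTe T _ (hMy M hM).1, hphi1 _ (hMy M hM).1 (hMy M hM).2]
    simp only [hw, htail]
    ring
  have hqn : ∀ t k : ℕ, 0 ≤ q t k := by
    intro t k
    unfold q
    positivity
  have htn : ∀ M ∈ Icc 1 ⌊z * zr x⌋₊, 0 ≤ tail M := by
    intro M hM
    refine Finset.sum_nonneg (fun k _ => mul_nonneg (hqn _ _) (hphi0 _ ?_))
    have := (hMy M hM).1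
    positivity
  have hkap : ∀ M, 0 ≤ kz z x M ∧ kz z x M ≤ 15 / L := by
    intro M
    unfold kz
    have hr : rho / (L / 100) ≤ 15 / L := by
      rw [div_div_eq_mul_div]
      exact div_le_div_of_nonneg_right (by linarith) hL0.le
    split_ifs
    · exact ⟨div_nonneg (by linarith) (by positivity), hr⟩
    · exact ⟨le_rfl, by positivity⟩
  have hlog34 : Real.log (3 / 4) = -(2 * rho) := by
    unfold rho
    rw [show (3 / 4 : ℝ) = (4 / 3)⁻¹ by norm_num, Real.log_inv]
    ring
  have hterm : ∀ M ∈ Icc 1 ⌊z * zr x⌋₊, |w M * tail M| ≤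
      15 / L * 3 ^ m * Real.exp (-(L / 800)) * (if z * zl x ≤ M then (1 : ℝ) / M else 0) := by
    intro M hM
    have hMI := hM
    rw [mem_Icc] at hM
    have hM0 : (0 : ℝ) < M := by exact_mod_cast hM.1
    by_cases hk : z * zl x ≤ M
    · rw [if_pos hk]
      have hw0 : 0 ≤ w M := by
        simp only [hw]
        exact mul_nonneg (mul_nonneg (hkap M).1 (hf M).1)
          (div_nonneg (mul_nonneg (by positivity) (mnz_pim_nonneg m M)) hM0.le)
      have hw1 : w M ≤ 15 / L * (3 ^ m / M) := by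
        simp only [hw]
        apply mul_le_mul
        · calc kz z x M * f M ≤ kz z x M * 1 := mul_le_mul_of_nonneg_left (hf M).2 (hkap M).1
            _ ≤ 15 / L := by rw [mul_one]; exact (hkap M).2
        · apply div_le_div_of_nonneg_right _ hM0.le
          calc (3 : ℝ) ^ m * pim m M ≤ 3 ^ m * 1 :=
                mul_le_mul_of_nonneg_left (mnz_pim_le hNs m M) (by positivity)
            _ = 3 ^ m := mul_one _
        · exact div_nonneg (mul_nonneg (by positivity) (mnz_pim_nonneg m M)) hM0.le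
        · positivity
      have ht1 : tail M ≤ Real.exp (-(L / 800)) := by
        refine le_trans (hTl T _ (hMy M hMI).1) ?_
        rw [Real.rpow_def_of_pos (hMy M hMI).1, Real.rpow_def_of_pos (by norm_num : (0 : ℝ) < 3 / 4),
          ← Real.exp_add, Real.exp_le_exp, hlog34, Real.log_div hM0.ne' hyp.ne']
        have hlM : Real.log z + 103 / 100 * L ≤ Real.log M := by
          have h3 : Real.log z + Real.log (zl x) = Real.log (z * zl x) :=
            (Real.log_mul hz0.ne' (Real.rpow_pos_of_pos hxp _).ne').symm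
          have h4 : Real.log (zl x) = 103 / 100 * L := Real.log_rpow hxp _
          rw [← h4, h3]
          exact Real.log_le_log (mul_pos hz0 (Real.rpow_pos_of_pos hxp _)) hk
        have hTr : Real.log (y / z) - 101 / 100 * L < rho * T := by
          rw [hT]
          push_cast
          linarith
        rw [hlyz] at hTr h12
        linarith
      rw [abs_of_nonneg (mul_nonneg hw0 (htn M hMI))]
      calc w M * tail M ≤ 15 / L * (3 ^ m / M) * Real.exp (-(L / 800)) :=
            mul_le_mul hw1 ht1 (htn M hMI) (by positivity)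
        _ = 15 / L * 3 ^ m * Real.exp (-(L / 800)) * (1 / M) := by ring
    · rw [if_neg hk, mul_zero]
      have hk0 : kz z x M = 0 := by
        unfold kz
        rw [if_neg]
        rintro ⟨h3, -⟩
        rw [le_div_iff₀ hz0] at h3
        exact hk (by linarith)
      have : w M = 0 := by
        simp only [hw, hk0, zero_mul]
      rw [this, zero_mul, abs_zero]
  rw [hAm, abs_neg]
  have hexp1 : (3 : ℝ) ^ m ≤ Real.exp (L / 2000) := by
    refine hm.trans (le_of_eq ?_)
    rw [Real.rpow_def_of_pos hxp]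
    congr 1
    ring
  have hexp2 : L ^ 2 * Real.exp (-(3 * L / 4000)) ≤ 4000000 := by
    have h := Real.pow_div_factorial_le_exp (3 * L / 4000) (by positivity) 2
    have h3 : ((Nat.factorial 2 : ℕ) : ℝ) = 2 := by norm_num [Nat.factorial]
    rw [h3] at h
    rw [Real.exp_neg, ← div_eq_mul_inv, div_le_iff₀ (Real.exp_pos _)]
    have h4 : (3 * L / 4000) ^ 2 / 2 = 9 / 32000000 * L ^ 2 := by ring
    rw [h4] at h
    nlinarith [sq_nonneg L]
  calc |∑ M ∈ Icc 1 ⌊z * zr x⌋₊, w M * tail M| ≤ ∑ M ∈ Icc 1 ⌊z * zr x⌋₊, |w M * tail M| :=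
        Finset.abs_sum_le_sum_abs _ _
    _ ≤ ∑ M ∈ Icc 1 ⌊z * zr x⌋₊, 15 / L * 3 ^ m * Real.exp (-(L / 800)) *
          (if z * zl x ≤ M then (1 : ℝ) / M else 0) :=
        Finset.sum_le_sum hterm
    _ = 15 / L * 3 ^ m * Real.exp (-(L / 800)) *
          ∑ M ∈ Icc 1 ⌊z * zr x⌋₊, (if z * zl x ≤ M then (1 : ℝ) / M else 0) := by
        rw [Finset.mul_sum]
    _ ≤ 15 / L * Real.exp (L / 2000) * Real.exp (-(L / 800)) * (2 * L) := by
        have hs := mnz_window z x hz hx3 h1
        gcongr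
    _ = 30 * Real.exp (-(3 * L / 4000)) := by
        have : Real.exp (L / 2000) * Real.exp (-(L / 800)) = Real.exp (-(3 * L / 4000)) := by
          rw [← Real.exp_add]
          congr 1
          ring
        rw [← this]
        field_simp
        ring
    _ ≤ 200000000 / L ^ 2 := by
        rw [le_div_iff₀ (by positivity)]
        have hE := Real.exp_pos (-(3 * L / 4000))
        nlinarith

end Pool.Agent.Helper90.PRD
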