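import Pool.Agent.Helper76.DE.StL

/-!
# Project PRD (MP_77ff3d_nt), module Fwz: forward identity with a base point
-/

set_option autoImplicit false

noncomputable section

namespace Pool.Agent.Helper90.PRD

open Pool.Agent.Helper76.ND Pool.Agent.Helper76.DE Finset

theorem fwz_mu_zero (hg0 : ∀ v : ℝ, v ≤ 1 / 2 → gg v = 0) (hg1 : ∀ v : ℝ, 3 / 2 ≤ v → gg v = 0)
    {y : ℝ} (hy : 0 < y) (N : ℕ) (h : (N : ℝ) ≤ y / 2 ∨ 3 / 2 * y ≤ N) : mu y N = 0 := by
  unfold mu
  rcases h with h | h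
  · rw [hg0 _ (by rw [div_le_iff₀ hy]; linarith), zero_div]
  · rw [hg1 _ (by rw [le_div_iff₀ hy]; linarith), zero_div]

theorem fwz_mu_nonneg (hg : ∀ v : ℝ, 0 ≤ gg v ∧ gg v ≤ 1 / 4 ∧ 0 ≤ v * gg v ∧ v * gg v ≤ 1 / 4)
    {y : ℝ} (hy : 0 < y) (N : ℕ) : 0 ≤ mu y N := div_nonneg (hg _).1 hy.le

theorem fwz_mu_le (hg : ∀ v : ℝ, 0 ≤ gg v ∧ gg v ≤ 1 / 4 ∧ 0 ≤ v * gg v ∧ v * gg v ≤ 1 / 4)
    {y : ℝ} (hy : 0 < y) (N : ℕ) : mu y N ≤ 1 / (4 * y) := by
  unfold mu
  rw [div_le_div_iff₀ hy (by positivity)]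
  nlinarith [(hg ((N : ℝ) / y)).2.1]

open Classical in
theorem hFwz (hBw : StBw) (hBn : StBn) (hPr : StPr) (hPo : StPo) (hVi : StViz) : StFwz := by
  obtain ⟨x1, hx13, hP⟩ := hPr
  obtain ⟨x2, C1, hx23, hC1, hV⟩ := hVi
  obtain ⟨-, hg, hg0, hg1, -⟩ := hPo
  refine ⟨max x1 x2, C1 + 30, le_trans hx13 (le_max_left _ _), by linarith, ?_⟩
  intro z x y B f hx hY hf hB hI
  have hxx1 : x1 ≤ x := le_trans (le_max_left _ _) hx
  have hxx2 : x2 ≤ x := le_trans (le_max_right _ _) hx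
  obtain ⟨p1, p2, p3, p4, p5, p6, p7, p8, p9, p10, p11, p12, p13, p14⟩ := hP x (y / z) hxx1 hY.2
  change 1 ≤ tz z x y at p3
  change (tz z x y : ℝ) ≤ Real.log x / 2 at p4
  change (2 : ℝ) ^ (tz z x y) ≤ x ^ (1 / 4 : ℝ) at p5
  have hz1 : 1 ≤ z := hY.1
  have hz0 : 0 < z := by linarith
  have hx3 : 3 ≤ x := le_trans hx13 hxx1
  have hx0 : 0 < x := by linarith
  have hyz0 : 0 < y / z := by linarith
  have hyeq : y = y / z * z := by field_simp
  have hyzy : y / z ≤ y := by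
    have h1 : y / z * 1 ≤ y / z * z := mul_le_mul_of_nonneg_left hz1 hyz0.le
    rw [← hyeq] at h1
    linarith
  have hy0 : 0 < y := by linarith
  have hVN := hV z x y
  set L := Real.log x with hL
  have hL0 : 0 < L := by linarith
  set u := L ^ (1 / 3 : ℝ) with hu
  have hu0 : 0 < u := Real.rpow_pos_of_pos hL0 _
  have hu3 : u ^ 3 = L := by
    rw [hu, ← Real.rpow_natCast, ← Real.rpow_mul hL0.le]; norm_num
  have hu2 : L ^ (2 / 3 : ℝ) = u ^ 2 := by
    rw [hu, ← Real.rpow_natCast, ← Real.rpow_mul hL0.le]; norm_num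
  have hum : L ^ (-(1 / 3) : ℝ) = u⁻¹ := by
    rw [hu, Real.rpow_neg hL0.le]
  have hzl : 0 < zl x := Real.rpow_pos_of_pos hx0 _
  have hzr : 0 < zr x := Real.rpow_pos_of_pos hx0 _
  have hrho : 0 < rho := by linarith
  rw [hu2, hum] at hVN
  rw [hum]
  set D := u ^ 2 with hD
  have hAw : Awz z x y f = ∑ N ∈ Icc 1 ⌊2 * y⌋₊, mu y N *
      ∑ t ∈ range (tz z x y + 1), kz z x (S^[t] N) * f (S^[t] N) := by
    have h1 : ∀ N : ℕ, N = 0 ∨ ⌊2 * y⌋₊ < N → mu y N = 0 := by
      intro N hN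
      apply fwz_mu_zero hg0 hg1 hy0
      rcases hN with hN | hN
      · left; rw [hN]; push_cast; linarith
      · right
        have := (Nat.floor_lt (by linarith)).1 hN
        linarith
    have h2 : ∀ M : ℕ, M = 0 ∨ ⌊z * zr x⌋₊ < M → (fun M => kz z x M * f M) M = 0 := by
      intro M hM
      have : kz z x M = 0 := by
        unfold kz
        rw [if_neg]
        rintro ⟨h3, h4⟩
        rcases hM with hM | hM
        · rw [hM] at h3; push_cast at h3; rw [zero_div] at h3; linarith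
        · have := (Nat.floor_lt (mul_pos hz0 hzr).le).1 hM
          rw [div_le_iff₀ hz0] at h4
          linarith
      simp only [this, zero_mul]
    have h3 : ∀ t : ℕ, ∑ M ∈ Icc 1 ⌊z * zr x⌋₊, kz z x M * f M *
        ∑ l ∈ (W t).filter (fun l => 3 ^ hd l ∣ 2 ^ t * M + cc l),
          mu y ((2 ^ t * M + cc l) / 3 ^ hd l) =
        ∑ N ∈ Icc 1 ⌊2 * y⌋₊, mu y N * (kz z x (S^[t] N) * f (S^[t] N)) := by
      intro t
      exact (hBw t _ _ (mu y) (fun M => kz z x M * f M) h1 h2).symm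
    unfold Awz
    rw [Finset.sum_congr rfl (fun t _ => h3 t), Finset.sum_comm]
    apply Finset.sum_congr rfl
    intro N _
    rw [Finset.mul_sum]
  have hdif : II y f - Awz z x y f = ∑ N ∈ Icc 1 ⌊2 * y⌋₊, mu y N *
      (f N - ∑ t ∈ range (tz z x y + 1), kz z x (S^[t] N) * f (S^[t] N)) := by
    rw [hAw]
    unfold II
    rw [← Finset.sum_sub_distrib]
    apply Finset.sum_congr rfl
    intro N _
    ring
  have hk0 : ∀ M, 0 ≤ kz z x M := by
    intro M
    unfold kz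
    split_ifs
    · positivity
    · exact le_refl _
  have hk1 : ∀ M, kz z x M ≤ rho / (L / 100) := by
    intro M
    unfold kz
    split_ifs
    · exact le_refl _
    · positivity
  have hsumk : ∀ N, ∑ t ∈ range (tz z x y + 1), kz z x (S^[t] N) * f (S^[t] N) ≤ 30 := by
    intro N
    have h1 : ∑ t ∈ range (tz z x y + 1), kz z x (S^[t] N) * f (S^[t] N) ≤
        ∑ t ∈ range (tz z x y + 1), rho / (L / 100) := by
      apply Finset.sum_le_sum
      intro t _
      calc kz z x (S^[t] N) * f (S^[t] N) ≤ kz z x (S^[t] N) * 1 :=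
            mul_le_mul_of_nonneg_left (hf _).2 (hk0 _)
        _ ≤ _ := by rw [mul_one]; exact hk1 _
    refine le_trans h1 ?_
    rw [Finset.sum_const, card_range, nsmul_eq_mul]
    push_cast
    have h2 : ((tz z x y : ℝ) + 1) * (rho / (L / 100)) = 100 * rho * ((tz z x y : ℝ) + 1) / L := by
      field_simp
    rw [h2, div_le_iff₀ hL0]
    have h3 : (tz z x y : ℝ) + 1 ≤ 3 / 2 * L := by linarith
    have h4 : 100 * rho * ((tz z x y : ℝ) + 1) ≤ 100 * rho * (3 / 2 * L) :=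
      mul_le_mul_of_nonneg_left h3 (by positivity)
    have h5 : 100 * rho * (3 / 2 * L) = 150 * (rho * L) := by ring
    have h6 : rho * L ≤ 144 / 1000 * L := mul_le_mul_of_nonneg_right p10.le hL0.le
    linarith
  have hsumk0 : ∀ N, 0 ≤ ∑ t ∈ range (tz z x y + 1), kz z x (S^[t] N) * f (S^[t] N) := by
    intro N
    apply Finset.sum_nonneg
    intro t _
    exact mul_nonneg (hk0 _) (hf _).1
  set bad := (Icc 1 ⌊2 * y⌋₊).filter (fun N => ¬ Gd D (wd (tz z x y) N)) with hbad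
  -- pointwise bound
  have hpt : ∀ N ∈ Icc 1 ⌊2 * y⌋₊, mu y N *
      |f N - ∑ t ∈ range (tz z x y + 1), kz z x (S^[t] N) * f (S^[t] N)| ≤
      mu y N * (C1 * u⁻¹) + (if ¬ Gd D (wd (tz z x y) N) then 30 / (4 * y) else 0) := by
    intro N hN
    have hmu := fwz_mu_nonneg hg hy0 N
    by_cases hGd : Gd D (wd (tz z x y) N)
    · rw [if_neg (not_not.2 hGd), add_zero]
      by_cases hz : mu y N = 0
      · rw [hz, zero_mul, zero_mul]
      · have hN1 : y / 2 ≤ N := by
          by_contra hcon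
          push Not at hcon
          exact hz (fwz_mu_zero hg0 hg1 hy0 N (Or.inl hcon.le))
        have hN2 : (N : ℝ) ≤ 3 / 2 * y := by
          by_contra hcon
          push Not at hcon
          exact hz (fwz_mu_zero hg0 hg1 hy0 N (Or.inr hcon.le))
        obtain ⟨v1, v2⟩ := hVN N hxx2 hY hN1 hN2 hGd
        apply mul_le_mul_of_nonneg_left _ hmu
        have hfc : ∀ t, t ≤ tz z x y → f (S^[t] N) = f N := by
          intro t
          induction t with
          | zero => intro _; rfl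
          | succ t ih =>
            intro ht
            rw [Function.iterate_succ_apply', hI _ _, ih (by omega)]
            have h5 := v1 t (by omega)
            have h6 : (B : ℝ) < (S^[t] N : ℕ) := lt_of_le_of_lt hB h5
            exact_mod_cast h6
        have h4 : ∑ t ∈ range (tz z x y + 1), kz z x (S^[t] N) * f (S^[t] N) =
            (∑ t ∈ range (tz z x y + 1), kz z x (S^[t] N)) * f N := by
          rw [Finset.sum_mul]
          apply Finset.sum_congr rfl
          intro t ht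
          rw [mem_range] at ht
          rw [hfc t (by omega)]
        rw [h4]
        have h5 : f N - (∑ t ∈ range (tz z x y + 1), kz z x (S^[t] N)) * f N =
            -(f N * (∑ t ∈ range (tz z x y + 1), kz z x (S^[t] N) - 1)) := by ring
        rw [h5, abs_neg, abs_mul, abs_of_nonneg (hf N).1]
        calc f N * |∑ t ∈ range (tz z x y + 1), kz z x (S^[t] N) - 1|
            ≤ 1 * |∑ t ∈ range (tz z x y + 1), kz z x (S^[t] N) - 1| :=
              mul_le_mul_of_nonneg_right (hf N).2 (abs_nonneg _)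
          _ ≤ _ := by rw [one_mul]; exact v2
    · rw [if_pos hGd]
      have h1 : |f N - ∑ t ∈ range (tz z x y + 1), kz z x (S^[t] N) * f (S^[t] N)| ≤ 30 := by
        rw [abs_le]
        constructor
        · linarith [hsumk N, (hf N).1]
        · linarith [hsumk0 N, (hf N).2]
      have h2 : mu y N * |f N - ∑ t ∈ range (tz z x y + 1), kz z x (S^[t] N) * f (S^[t] N)| ≤
          1 / (4 * y) * 30 :=
        mul_le_mul (fwz_mu_le hg hy0 N) h1 (abs_nonneg _) (by positivity)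
      have h3 : 0 ≤ mu y N * (C1 * u⁻¹) := by positivity
      have h4 : 1 / (4 * y) * 30 = 30 / (4 * y) := by ring
      linarith
  have hfl : (⌊2 * y⌋₊ : ℝ) ≤ 2 * y := Nat.floor_le (by linarith)
  -- sum of mu
  have hmus : ∑ N ∈ Icc 1 ⌊2 * y⌋₊, mu y N ≤ 1 / 2 := by
    have h1 : ∑ N ∈ Icc 1 ⌊2 * y⌋₊, mu y N ≤ ∑ N ∈ Icc 1 ⌊2 * y⌋₊, 1 / (4 * y) :=
      Finset.sum_le_sum (fun N _ => fwz_mu_le hg hy0 N)
    rw [Finset.sum_const, Nat.card_Icc, Nat.add_sub_cancel, nsmul_eq_mul] at h1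
    refine le_trans h1 ?_
    calc (⌊2 * y⌋₊ : ℝ) * (1 / (4 * y)) ≤ (2 * y) * (1 / (4 * y)) :=
          mul_le_mul_of_nonneg_right hfl (by positivity)
      _ = 1 / 2 := by field_simp; norm_num
  -- number of bad
  have hbadc : (bad.card : ℝ) ≤ 4 * y * (u ^ 3 * Real.exp (-(4 * u))) := by
    have h2t : 2 ^ (tz z x y) ≤ ⌊2 * y⌋₊ := by
      apply Nat.le_floor
      push_cast
      have h8 : x ^ (1 / 4 : ℝ) ≤ x := by
        conv_rhs => rw [← Real.rpow_one x]
        exact Real.rpow_le_rpow_of_exponent_le (by linarith) (by norm_num)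
      linarith
    have h1 := hBn ⌊2 * y⌋₊ (tz z x y) D p3 h2t (by positivity)
    have h1' : (bad.card : ℝ) ≤ 4 * (⌊2 * y⌋₊ : ℝ) * (tz z x y : ℝ) *
        Real.exp (-(2 * D ^ 2 / (tz z x y : ℝ))) := by
      convert h1 using 2
    have ht0 : (0 : ℝ) < tz z x y := by exact_mod_cast p3
    have h3 : 4 * u ≤ 2 * D ^ 2 / (tz z x y : ℝ) := by
      rw [le_div_iff₀ ht0]
      have h5 : 4 * u * (tz z x y : ℝ) ≤ 4 * u * (L / 2) :=
        mul_le_mul_of_nonneg_left p4 (by positivity)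
      have h6 : 4 * u * (L / 2) = 2 * D ^ 2 := by
        rw [← hu3, hD]; ring
      linarith
    have h4 : Real.exp (-(2 * D ^ 2 / (tz z x y : ℝ))) ≤ Real.exp (-(4 * u)) :=
      Real.exp_le_exp.2 (by linarith)
    calc (bad.card : ℝ) ≤ 4 * (⌊2 * y⌋₊ : ℝ) * (tz z x y : ℝ) *
          Real.exp (-(2 * D ^ 2 / (tz z x y : ℝ))) := h1'
      _ ≤ 4 * (2 * y) * (u ^ 3 / 2) * Real.exp (-(4 * u)) := by
          apply mul_le_mul _ h4 (Real.exp_pos _).le (by positivity)
          apply mul_le_mul _ _ ht0.le (by positivity)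
          · linarith
          · rw [hu3]; exact p4
      _ = 4 * y * (u ^ 3 * Real.exp (-(4 * u))) := by ring
  have hexp : u ^ 3 * Real.exp (-(4 * u)) ≤ u⁻¹ := by
    have h1 := Real.pow_div_factorial_le_exp (4 * u) (by positivity) 4
    have h2 : u ^ 4 ≤ Real.exp (4 * u) := by
      refine le_trans ?_ h1
      have : ((Nat.factorial 4 : ℕ) : ℝ) = 24 := by norm_num [Nat.factorial]
      rw [this, le_div_iff₀ (by norm_num)]
      nlinarith [pow_pos hu0 4]
    rw [Real.exp_neg, ← div_eq_mul_inv, div_le_iff₀ (Real.exp_pos _)]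
    have h3 : u ^ 3 = u⁻¹ * u ^ 4 := by field_simp
    rw [h3]
    exact mul_le_mul_of_nonneg_left h2 (by positivity)
  -- assembly
  rw [hdif]
  calc |∑ N ∈ Icc 1 ⌊2 * y⌋₊, mu y N *
      (f N - ∑ t ∈ range (tz z x y + 1), kz z x (S^[t] N) * f (S^[t] N))|
      ≤ ∑ N ∈ Icc 1 ⌊2 * y⌋₊, |mu y N *
      (f N - ∑ t ∈ range (tz z x y + 1), kz z x (S^[t] N) * f (S^[t] N))| :=
        Finset.abs_sum_le_sum_abs _ _
    _ ≤ ∑ N ∈ Icc 1 ⌊2 * y⌋₊, (mu y N * (C1 * u⁻¹) +
        (if ¬ Gd D (wd (tz z x y) N) then 30 / (4 * y) else 0)) := by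
        apply Finset.sum_le_sum
        intro N hN
        rw [abs_mul, abs_of_nonneg (fwz_mu_nonneg hg hy0 N)]
        exact hpt N hN
    _ = (∑ N ∈ Icc 1 ⌊2 * y⌋₊, mu y N) * (C1 * u⁻¹) + (bad.card : ℝ) * (30 / (4 * y)) := by
        rw [Finset.sum_add_distrib, Finset.sum_mul, ← Finset.sum_filter, Finset.sum_const,
          nsmul_eq_mul]
    _ ≤ (1 / 2) * (C1 * u⁻¹) + (4 * y * u⁻¹) * (30 / (4 * y)) := by
        have h1 : (∑ N ∈ Icc 1 ⌊2 * y⌋₊, mu y N) * (C1 * u⁻¹) ≤ (1 / 2) * (C1 * u⁻¹) :=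
          mul_le_mul_of_nonneg_right hmus (by positivity)
        have h2 : (bad.card : ℝ) ≤ 4 * y * u⁻¹ :=
          le_trans hbadc (mul_le_mul_of_nonneg_left hexp (by positivity))
        have h3 : (bad.card : ℝ) * (30 / (4 * y)) ≤ (4 * y * u⁻¹) * (30 / (4 * y)) :=
          mul_le_mul_of_nonneg_right h2 (by positivity)
        linarith
    _ ≤ (C1 + 30) * u⁻¹ := by
        have h1 : (4 * y * u⁻¹) * (30 / (4 * y)) = 30 * u⁻¹ := by field_simp
        rw [h1]
        have h2 : 0 < C1 * u⁻¹ := by positivity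
        nlinarith

end Pool.Agent.Helper90.PRD
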